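import Mathlib
import Pool.Agent.Helper394.Conv

open Finset Filter Topology

namespace Pool.Agent.Results.MP_7e070a_pr.CycleNoCutoff

noncomputable section

/-- Convolution powers `μ^{*t}` of a function on `ℤ/n`; `μ^{*0}` is the point mass at `0`. -/
def convPow {n : ℕ} [NeZero n] (μ : ZMod n → ℝ) : ℕ → ZMod n → ℝ
  | 0 => fun x => if x = 0 then 1 else 0
  | t + 1 => fun x => ∑ y, convPow μ t y * μ (x - y)

/-- `μ` is a symmetric probability measure on `ℤ/n` whose convolution walk is irreducible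
(its support generates `ℤ/n`) and aperiodic (the return times have greatest common
divisor one). -/
structure IsSymmetricWalk {n : ℕ} [NeZero n] (μ : ZMod n → ℝ) : Prop where
  nonneg : ∀ x, 0 ≤ μ x
  sum_eq_one : ∑ x, μ x = 1
  symm : ∀ x, μ (-x) = μ x
  irreducible : AddSubgroup.closure {x | μ x ≠ 0} = ⊤
  aperiodic : ∀ g : ℕ, (∀ t : ℕ, 0 < t → convPow μ t 0 ≠ 0 → g ∣ t) → g = 1

/-- Total variation distance `‖μ^{*t} - U‖_TV` to the uniform law. -/
def tvDist {n : ℕ} [NeZero n] (μ : ZMod n → ℝ) (t : ℕ) : ℝ :=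
  (1 / 2 : ℝ) * ∑ x, |convPow μ t x - 1 / (n : ℝ)|

/-- Mixing time `T_mix(ε) = min {t : ‖μ^{*t} - U‖_TV ≤ ε}`. -/
def Tmix {n : ℕ} [NeZero n] (μ : ZMod n → ℝ) (ε : ℝ) : ℕ := sInf {t : ℕ | tvDist μ t ≤ ε}

/-- The eigenvalue `μ̂(j) = ∑_x μ(x) cos(2π j x / n)`. -/
def muHat {n : ℕ} [NeZero n] (μ : ZMod n → ℝ) (j : ZMod n) : ℝ :=
  ∑ x, μ x * Real.cos (2 * Real.pi * ((j.val : ℝ) * (x.val : ℝ)) / (n : ℝ))

/-- `λ_*`: the largest absolute value of an eigenvalue `μ̂(j)` with `j ≠ 0`. -/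
def lambdaStar {n : ℕ} [NeZero n] (μ : ZMod n → ℝ) : ℝ := ⨆ j : {j : ZMod n // j ≠ 0}, |muHat μ j|

/-- Relaxation time `T_rel = 1 / (1 - λ_*)`. -/
def Trel {n : ℕ} [NeZero n] (μ : ZMod n → ℝ) : ℝ := 1 / (1 - lambdaStar μ)

/-- `μ` is the step law of a lazy simple random walk on an unweighted Cayley graph of `ℤ/n`:
mass `1/2` at `0` and the rest uniform on a set `S = -S` with `0 ∉ S`. -/
def IsLazySimple {n : ℕ} [NeZero n] (μ : ZMod n → ℝ) : Prop :=
  ∃ S : Finset (ZMod n), S.Nonempty ∧ 0 ∉ S ∧ (∀ s ∈ S, -s ∈ S) ∧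
    ∀ x, μ x = if x = 0 then 1 / 2 else if x ∈ S then 1 / (2 * (S.card : ℝ)) else 0

/-- Total variation cutoff: `T_mix(ε) / T_mix(1-ε) → 1` for every fixed `ε ∈ (0,1/2)`. -/
def HasCutoff (n : ℕ → ℕ) [∀ k, NeZero (n k)] (μ : ∀ k, ZMod (n k) → ℝ) : Prop :=
  ∀ ε : ℝ, 0 < ε → ε < 1 / 2 →
    Tendsto (fun k => (Tmix (μ k) ε : ℝ) / (Tmix (μ k) (1 - ε) : ℝ)) atTop (𝓝 1)

/-- The product condition `T_mix(1/4) / T_rel → ∞`. -/
def ProductCondition (n : ℕ → ℕ) [∀ k, NeZero (n k)] (μ : ∀ k, ZMod (n k) → ℝ) : Prop :=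
  Tendsto (fun k => (Tmix (μ k) (1 / 4) : ℝ) / Trel (μ k)) atTop atTop

theorem convPow_eq {n : ℕ} [NeZero n] (S : Finset (ZMod n)) (t : ℕ) (y : ZMod n) :
    convPow (Helper394.mu S) t y = ((Helper394.Pmu S) ^ t) 0 y := by
  induction t generalizing y with
  | zero =>
    simp only [convPow, pow_zero, Matrix.one_apply]
    by_cases h : y = 0
    · rw [if_pos h, if_pos h.symm]
    · rw [if_neg h, if_neg (fun h' => h h'.symm)]
  | succ t ih =>
    rw [convPow, pow_succ, Matrix.mul_apply]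
    refine Finset.sum_congr rfl fun z _ => ?_
    rw [ih]
    rfl

/-- There are symmetric, irreducible, aperiodic convolution walks on cycles `ℤ/n_k`,
`n_k → ∞`, even lazy simple random walks on unweighted Cayley graphs of `ℤ/n_k`, with
`T_mix / T_rel → ∞` but without total variation cutoff. -/
theorem result :
    ∃ (n : ℕ → ℕ) (_ : ∀ k, NeZero (n k)) (μ : ∀ k, ZMod (n k) → ℝ),
      Tendsto n atTop atTop ∧
      (∀ k, 2 ≤ n k) ∧
      (∀ k, IsSymmetricWalk (μ k)) ∧
      (∀ k, IsLazySimple (μ k)) ∧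
      ProductCondition n μ ∧
      ¬ HasCutoff n μ := by
  choose N hN S hTN hS using fun n : ℕ => Helper394.exists_bad (n + 64) (by omega)
  have hP : ∀ n, ∀ f : ZMod (N n) → ℝ,
      (Helper394.Pmu (S n)).mulVec f = Helper394.V (S n) f :=
    fun n f => Helper394.Pmu_mulVec (S n) f
  have hcard : ∀ n, (0 : ℝ) < (N n : ℝ) := fun n => by
    have := (hN n).out
    have : 0 < N n := Nat.pos_of_ne_zero this
    exact_mod_cast this
  have hc : ∀ n, (Fintype.card (ZMod (N n)) : ℝ) = (N n : ℝ) := fun n => by rw [ZMod.card]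
  have htv : ∀ n t, tvDist (Helper394.mu (S n)) t =
      (1 / 2 : ℝ) * ∑ y, |((Helper394.Pmu (S n)) ^ t) 0 y -
        1 / (Fintype.card (ZMod (N n)) : ℝ)| := by
    intro n t
    rw [tvDist, hc]
    simp only [convPow_eq]
  have h1 : ∀ n, ∀ t ≤ n + 64, 1 / 2 < tvDist (Helper394.mu (S n)) t := by
    intro n t ht
    rw [htv]
    have h := Helper394.fact_lower (hS n) (hP n) t ht
    linarith
  have h2 : ∀ n, tvDist (Helper394.mu (S n)) (2 * ((n + 64) / 8) + 1) ≤ 1 - 1 / 2000 := by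
    intro n
    rw [htv]
    exact Helper394.fact_upper (hS n) (hP n) ((n + 64) / 8) (by omega) 0
  have h3 : ∀ n ε, 0 < ε → ∃ t, tvDist (Helper394.mu (S n)) t ≤ ε := by
    intro n ε hε
    have hG := hcard n
    obtain ⟨t, ht⟩ := Helper394.fact_conv (hS n) (hP n) (ε / (N n : ℝ)) (by positivity)
    refine ⟨t, ?_⟩
    rw [htv]
    calc (1 / 2 : ℝ) * ∑ y, |((Helper394.Pmu (S n)) ^ t) 0 y -
          1 / (Fintype.card (ZMod (N n)) : ℝ)|
        ≤ (1 / 2 : ℝ) * ∑ _y : ZMod (N n), ε / (N n : ℝ) := by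
          gcongr with y
          exact ht 0 y
      _ = ε / 2 := by
          simp only [Finset.sum_const, Finset.card_univ, nsmul_eq_mul, hc]
          field_simp
      _ ≤ ε := by linarith
  refine ⟨N, hN, fun k => Helper394.mu (S k), ?_, ?_, ?_, ?_, ?_, ?_⟩
  · refine tendsto_atTop_mono (fun n => ?_) tendsto_id
    have := hTN n
    simp only [id]
    omega
  · intro k
    have := hTN k
    omega
  · intro k
    refine ⟨Helper394.mu_nonneg _, Helper394.mu_sum _ (hS k).nonempty,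
      Helper394.mu_neg _ (hS k).neg, ?_, ?_⟩
    · rw [eq_top_iff]
      intro x _
      refine (hS k).closed
        (AddSubgroup.closure {x | Helper394.mu (S k) x ≠ 0} : Set (ZMod (N k))) 0
        (AddSubgroup.zero_mem _) ?_ x
      intro y hy s hs
      exact AddSubgroup.add_mem _ hy
        (AddSubgroup.subset_closure (Helper394.mu_mem_pos _ s hs).ne')
    · intro g hg
      have h5 : convPow (Helper394.mu (S k)) 1 0 ≠ 0 := by
        have h6 : convPow (Helper394.mu (S k)) 1 0 = Helper394.mu (S k) 0 := by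
          rw [convPow_eq, pow_one, Helper394.Pmu, sub_zero]
        rw [h6]
        exact (Helper394.mu_zero_pos _).ne'
      exact Nat.dvd_one.mp (hg 1 one_pos h5)
  · intro k
    refine ⟨S k, (hS k).nonempty, (hS k).zero, (hS k).neg, fun x => ?_⟩
    change Helper394.mu (S k) x = _
    unfold Helper394.mu
    by_cases hx : x = 0
    · rw [if_pos hx, if_pos hx, hx, if_neg (hS k).zero, add_zero]
    · rw [if_neg hx, if_neg hx, zero_add]
  · apply Helper394.tendsto_div_of
    · intro n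
      exact Helper394.sInf_gt _ (n + 64) _ (by norm_num) (h1 n) (h3 n _ (by norm_num))
    · intro n
      have hne : Nonempty {j : ZMod (N n) // j ≠ 0} := by
        have h4 : 1 < N n := by have := hTN n; omega
        have : Fact (1 < N n) := ⟨h4⟩
        exact ⟨⟨1, one_ne_zero⟩⟩
      have h5 : lambdaStar (Helper394.mu (S n)) ≤ 7 / 8 :=
        ciSup_le fun j => Helper394.muHat_cos_le (hS n) j.1 j.2
      have h50 : 0 ≤ lambdaStar (Helper394.mu (S n)) :=
        Real.iSup_nonneg fun j => abs_nonneg _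
      have h6 : 0 < 1 - lambdaStar (Helper394.mu (S n)) := by linarith
      refine ⟨one_div_pos.mpr h6, ?_⟩
      rw [Trel, div_le_iff₀ h6]
      linarith
  · intro hcut
    exact Helper394.no_cutoff_of (fun n => tvDist (Helper394.mu (S n))) h1 h2 h3
      (hcut (1 / 2000) (by norm_num) (by norm_num))

end

end Pool.Agent.Results.MP_7e070a_pr.CycleNoCutoff
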